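import Mathlib
import Pool.Agent.H297.StarIff

set_option autoImplicit false

namespace Pool.Agent.Results.MP_d900bd_co.ForestsOfStars

/-- A family of graphs on `[n]` is `H`-intersecting when for any two members (possibly equal)
`G₁, G₂` the common graph `G₁ ⊓ G₂` contains a (not necessarily induced) copy of `H`. -/
def HIntersecting {m : ℕ} (H : SimpleGraph (Fin m)) {n : ℕ}
    (F : Finset (SimpleGraph (Fin n))) : Prop :=
  ∀ G₁ ∈ F, ∀ G₂ ∈ F, H.IsContained (G₁ ⊓ G₂)

/-- `g_H(n)`: the largest size of an `H`-intersecting family of graphs on `[n]`. -/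
noncomputable def gH {m : ℕ} (H : SimpleGraph (Fin m)) (n : ℕ) : ℕ :=
  sSup {k : ℕ | ∃ F : Finset (SimpleGraph (Fin n)), HIntersecting H F ∧ F.card = k}

/-- `g_H(n) = (1 - o(1)) 2^{C(n,2)-1}` as `n → ∞`. -/
def AsymptoticallyHalf {m : ℕ} (H : SimpleGraph (Fin m)) : Prop :=
  Filter.Tendsto (fun n : ℕ => (gH H n : ℝ) / (2 ^ (n.choose 2) / 2)) Filter.atTop (nhds 1)

/-- `H` is a forest of stars: every connected component `C` of `H` is a star `K_{1,k}` (`k ≥ 0`),
i.e. it has a vertex `c` incident with all edges of `C`. -/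
def IsForestOfStars {m : ℕ} (H : SimpleGraph (Fin m)) : Prop :=
  ∀ C : H.ConnectedComponent, ∃ c ∈ C.supp, ∀ u w, H.Adj u w → u ∈ C.supp → u = c ∨ w = c

lemma attained {m : ℕ} (H : SimpleGraph (Fin m)) (n : ℕ) :
    ∃ F : Finset (SimpleGraph (Fin n)), HIntersecting H F ∧ F.card = gH H n := by
  have hne : {k : ℕ | ∃ F : Finset (SimpleGraph (Fin n)), HIntersecting H F ∧
      F.card = k}.Nonempty :=
    ⟨0, ∅, fun G hG => absurd hG (Finset.notMem_empty G), Finset.card_empty⟩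
  have hbdd : BddAbove {k : ℕ | ∃ F : Finset (SimpleGraph (Fin n)), HIntersecting H F ∧
      F.card = k} := by
    classical
    refine ⟨Fintype.card (SimpleGraph (Fin n)), ?_⟩
    rintro k ⟨F, _, rfl⟩
    exact Finset.card_le_univ F
  exact Nat.sSup_mem hne hbdd

lemma le_gH {m : ℕ} (H : SimpleGraph (Fin m)) {n : ℕ} (F : Finset (SimpleGraph (Fin n)))
    (hF : HIntersecting H F) : F.card ≤ gH H n := by
  classical
  apply le_csSup
  · refine ⟨Fintype.card (SimpleGraph (Fin n)), ?_⟩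
    rintro k ⟨F, _, rfl⟩
    exact Finset.card_le_univ F
  · exact ⟨F, hF, rfl⟩

lemma upper {m : ℕ} (H : SimpleGraph (Fin m)) (hH : ¬ IsForestOfStars H) (n : ℕ) :
    (gH H n : ℝ) ≤ (1 - 1 / 10000000) * (2 ^ (n.choose 2) / 2) := by
  obtain ⟨F, hF, hc⟩ := attained H n
  have h1 := Pool.Agent.H297.SF.not_star_bound H hH F hF
  rw [Fintype.card_fin, hc] at h1
  calc (gH H n : ℝ) ≤ (1 / 2 - 1 / 20000000) * 2 ^ (n.choose 2) := h1
    _ = (1 - 1 / 10000000) * (2 ^ (n.choose 2) / 2) := by ring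

/-- **Answer to Q1.** Among the graphs `H` with at least one edge, those with
`g_H(n) = (1 - o(1)) 2^{C(n,2)-1}` are exactly the forests of stars. Moreover there is an absolute
constant `c > 0` with `g_H(n) ≤ (1 - c) 2^{C(n,2)-1}` for all other `H` and all `n`. -/
theorem result :
    (∀ (m : ℕ) (H : SimpleGraph (Fin m)), H ≠ ⊥ → (AsymptoticallyHalf H ↔ IsForestOfStars H)) ∧
    ∃ c : ℝ, 0 < c ∧ ∀ (m : ℕ) (H : SimpleGraph (Fin m)), ¬ IsForestOfStars H →
      ∀ n : ℕ, (gH H n : ℝ) ≤ (1 - c) * (2 ^ (n.choose 2) / 2) := by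
  refine ⟨?_, 1 / 10000000, by norm_num, fun m H hH n => upper H hH n⟩
  intro m H hbot
  constructor
  · intro hT
    by_contra hH
    have h1 : ∀ n : ℕ, (gH H n : ℝ) / (2 ^ (n.choose 2) / 2) ≤ 1 - 1 / 10000000 := by
      intro n
      rw [div_le_iff₀ (by positivity)]
      exact upper H hH n
    have h2 := le_of_tendsto' hT h1
    norm_num at h2
  · intro hH
    unfold AsymptoticallyHalf
    rw [Metric.tendsto_atTop]
    intro ε hε
    obtain ⟨n0, hn0⟩ := Pool.Agent.H297.SF.star_lower H hH (ε / 2) (by linarith)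
    refine ⟨n0, fun n hn => ?_⟩
    obtain ⟨F, hF, hcard⟩ := hn0 n hn
    obtain ⟨F', hF', hc'⟩ := attained H n
    have hup := Pool.Agent.H297.SF.trivial_upper H hbot F' hF'
    rw [Fintype.card_fin, hc'] at hup
    have hlow : (F.card : ℝ) ≤ (gH H n : ℝ) := by exact_mod_cast le_gH H F hF
    have hpos : (0 : ℝ) < 2 ^ (n.choose 2) / 2 := by positivity
    have h1 : (gH H n : ℝ) / (2 ^ (n.choose 2) / 2) ≤ 1 := by
      rw [div_le_one hpos]; exact hup
    have h2 : 1 - ε / 2 ≤ (gH H n : ℝ) / (2 ^ (n.choose 2) / 2) := by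
      rw [le_div_iff₀ hpos]
      exact hcard.trans hlow
    rw [Real.dist_eq, abs_lt]
    constructor <;> linarith

end Pool.Agent.Results.MP_d900bd_co.ForestsOfStars
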