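import Mathlib
import Pool.Agent.H297.StarFinal

set_option autoImplicit false

namespace Pool.Agent.Results.MP_d900bd_co.NotStarForest

/-- A family of graphs on `[n]` is `H`-intersecting when for any two members (possibly equal)
`G₁, G₂` the common graph `G₁ ⊓ G₂` contains a (not necessarily induced) copy of `H`. -/
def HIntersecting {m : ℕ} (H : SimpleGraph (Fin m)) {n : ℕ}
    (F : Finset (SimpleGraph (Fin n))) : Prop :=
  ∀ G₁ ∈ F, ∀ G₂ ∈ F, H.IsContained (G₁ ⊓ G₂)

/-- `g_H(n)`: the largest size of an `H`-intersecting family of graphs on `[n]`. -/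
noncomputable def gH {m : ℕ} (H : SimpleGraph (Fin m)) (n : ℕ) : ℕ :=
  sSup {k : ℕ | ∃ F : Finset (SimpleGraph (Fin n)), HIntersecting H F ∧ F.card = k}

/-- `H` is a forest of stars: every connected component `C` of `H` is a star `K_{1,k}` (`k ≥ 0`),
i.e. it has a vertex `c` incident with all edges of `C`. -/
def IsForestOfStars {m : ℕ} (H : SimpleGraph (Fin m)) : Prop :=
  ∀ C : H.ConnectedComponent, ∃ c ∈ C.supp, ∀ u w, H.Adj u w → u ∈ C.supp → u = c ∨ w = c

/-- There is an absolute constant `c > 0` such that for every graph `H` that is not a forest of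
stars and every `n`, `g_H(n) ≤ (1 - c) 2^{C(n,2)-1}`. -/
theorem result : ∃ c : ℝ, 0 < c ∧ ∀ (m : ℕ) (H : SimpleGraph (Fin m)), ¬ IsForestOfStars H →
    ∀ n : ℕ, (gH H n : ℝ) ≤ (1 - c) * (2 ^ (n.choose 2) / 2) := by
  refine ⟨1 / 10000000, by norm_num, ?_⟩
  intro m H hH n
  have hne : {k : ℕ | ∃ F : Finset (SimpleGraph (Fin n)), HIntersecting H F ∧
      F.card = k}.Nonempty :=
    ⟨0, ∅, fun G hG => absurd hG (Finset.notMem_empty G), Finset.card_empty⟩
  have hbdd : BddAbove {k : ℕ | ∃ F : Finset (SimpleGraph (Fin n)), HIntersecting H F ∧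
      F.card = k} := by
    classical
    refine ⟨Fintype.card (SimpleGraph (Fin n)), ?_⟩
    rintro k ⟨F, _, rfl⟩
    exact Finset.card_le_univ F
  obtain ⟨F, hF, hc⟩ := Nat.sSup_mem hne hbdd
  have h1 := Pool.Agent.H297.SF.not_star_bound H hH F hF
  rw [Fintype.card_fin, hc] at h1
  calc (gH H n : ℝ) ≤ (1 / 2 - 1 / 20000000) * 2 ^ (n.choose 2) := h1
    _ = (1 - 1 / 10000000) * (2 ^ (n.choose 2) / 2) := by ring

end Pool.Agent.Results.MP_d900bd_co.NotStarForest
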